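import Pool.Agent.COV.StmtsB
import Pool.Agent.Helper92_KDT.EXT

/-!
Squad COV, block B, row ZFU: a polynomial with infinitely many zeros on the curve vanishes on it.
-/

set_option autoImplicit false

namespace Pool.Agent.COV.H45

open Polynomial Pool.Agent.KDT.Z

/-- An algebraic relation between a non constant `δ` and `x` which is not divisible by `δ`. -/
theorem rel {k U : Type} [Field k] [Field U] [Algebra k U] (δ : U) (h0 : δ ≠ 0)
    (h : Algebra.IsAlgebraic (IntermediateField.adjoin k {δ}) U) (x : U) :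
    ∃ P : k[X][X], P.map (evalRingHom 0) ≠ 0 ∧
      eval₂ ((aeval δ : k[X] →ₐ[k] U) : k[X] →+* U) x P = 0 := by
  obtain ⟨φ, hφ⟩ : ∃ φ : k[X] →ₐ[k] U, φ = aeval δ := ⟨_, rfl⟩
  have hδ : δ ∈ φ.range := ⟨X, by rw [hφ]; simp⟩
  have h1 : Algebra.IsAlgebraic φ.range U :=
    Pool.Agent.KDT.Z.H92.alg_of_mem φ.range δ hδ h
  obtain ⟨Q, hQ0, hQ⟩ := h1.isAlgebraic x
  obtain ⟨P, hP⟩ := Polynomial.map_surjective (φ.rangeRestrict : k[X] →+* φ.range)
    (AlgHom.rangeRestrict_surjective φ) Q
  have hP0 : P ≠ 0 := by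
    rintro rfl
    rw [Polynomial.map_zero] at hP
    exact hQ0 hP.symm
  have hPx : eval₂ (φ : k[X] →+* U) x P = 0 := by
    rw [← hP, Polynomial.aeval_def, Polynomial.eval₂_map] at hQ
    exact hQ
  -- divide by the power of the first variable
  have hXu : ¬ IsUnit (C X : k[X][X]) := by
    rw [Polynomial.isUnit_C]
    exact Polynomial.not_isUnit_X
  obtain ⟨P', hPP, hP'⟩ :=
    (FiniteMultiplicity.of_not_isUnit hXu hP0).exists_eq_pow_mul_and_not_dvd
  refine ⟨P', ?_, ?_⟩
  · intro hz
    apply hP'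
    rw [Polynomial.C_dvd_iff_dvd_coeff]
    intro i
    rw [Polynomial.X_dvd_iff, Polynomial.coeff_zero_eq_eval_zero]
    have h2 : (P'.map (evalRingHom (0 : k))).coeff i = 0 := by rw [hz, Polynomial.coeff_zero]
    rw [Polynomial.coeff_map] at h2
    exact h2
  · rw [← hφ]
    rw [hPP, Polynomial.eval₂_mul, Polynomial.eval₂_pow, Polynomial.eval₂_C] at hPx
    rcases mul_eq_zero.1 hPx with h2 | h2
    · have h3 : (φ : k[X] →+* U) X = 0 := by
        by_contra h4
        exact (pow_ne_zero _ h4) h2
      rw [hφ] at h3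
      simp at h3
      exact absurd h3 h0
    · exact h2

/-- part (1): a polynomial over the constants -/
theorem part1 {k U : Type} [Field k] [Field U] [Algebra k U]
    (td : ∀ t : U, t ∉ (algebraMap k U).range →
      Algebra.IsAlgebraic (IntermediateField.adjoin k {t}) U)
    (q : Fin 4 → U) (G : MvPolynomial (Fin 4) k)
    (hS : {t : Fin 4 → k | Spc q t ∧ MvPolynomial.eval t G = 0}.Infinite) :
    MvPolynomial.aeval q G = 0 := by
  by_contra hne
  obtain ⟨δ, hδ⟩ : ∃ δ, δ = MvPolynomial.aeval q G := ⟨_, rfl⟩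
  rw [← hδ] at hne
  by_cases hr : δ ∈ (algebraMap k U).range
  · obtain ⟨c, hc⟩ := hr
    obtain ⟨t, ht1, ht2⟩ := hS.nonempty
    have h1 := ht1 (G - MvPolynomial.C c) (by
      rw [map_sub, MvPolynomial.aeval_C, ← hδ, hc, sub_self])
    rw [map_sub, ht2, MvPolynomial.eval_C, zero_sub, neg_eq_zero] at h1
    rw [h1, map_zero] at hc
    exact hne hc.symm
  · have halg := td δ hr
    choose P hP0 hP using fun i => rel δ hne halg (q i)
    apply hS
    have hfin : (Set.univ.pi fun i : Fin 4 =>
        {a : k | ((P i).map (evalRingHom 0)).IsRoot a}).Finite := by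
      apply Set.Finite.pi
      intro i
      exact Polynomial.finite_setOfPred_isRoot (hP0 i)
    apply hfin.subset
    intro t ht
    obtain ⟨ht1, ht2⟩ := ht
    rw [Set.mem_univ_pi]
    intro i
    have h2 := ht1 (eval₂ ((aeval G : k[X] →ₐ[k] MvPolynomial (Fin 4) k) :
      k[X] →+* MvPolynomial (Fin 4) k) (MvPolynomial.X i) (P i)) (by
        have h3 := Polynomial.hom_eval₂ (P i) ((aeval G : k[X] →ₐ[k] MvPolynomial (Fin 4) k) :
          k[X] →+* MvPolynomial (Fin 4) k) ((MvPolynomial.aeval q :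
            MvPolynomial (Fin 4) k →ₐ[k] U) : MvPolynomial (Fin 4) k →+* U) (MvPolynomial.X i)
        have h4 : ((MvPolynomial.aeval q : MvPolynomial (Fin 4) k →ₐ[k] U) :
            MvPolynomial (Fin 4) k →+* U).comp ((aeval G : k[X] →ₐ[k] MvPolynomial (Fin 4) k) :
              k[X] →+* MvPolynomial (Fin 4) k) = ((aeval δ : k[X] →ₐ[k] U) : k[X] →+* U) := by
          apply Polynomial.ringHom_ext
          · intro a
            simp
          · simp [hδ]
        rw [h4] at h3
        have h5 : ((MvPolynomial.aeval q : MvPolynomial (Fin 4) k →ₐ[k] U) :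
            MvPolynomial (Fin 4) k →+* U) (MvPolynomial.X i) = q i := by simp
        rw [h5, hP i] at h3
        exact h3)
    have h3 := Polynomial.hom_eval₂ (P i) ((aeval G : k[X] →ₐ[k] MvPolynomial (Fin 4) k) :
      k[X] →+* MvPolynomial (Fin 4) k) (MvPolynomial.eval t) (MvPolynomial.X i)
    have h4 : (MvPolynomial.eval t).comp ((aeval G : k[X] →ₐ[k] MvPolynomial (Fin 4) k) :
        k[X] →+* MvPolynomial (Fin 4) k) = evalRingHom (0 : k) := by
      apply Polynomial.ringHom_ext
      · intro a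
        simp
      · simp [ht2]
    rw [h4, h2, MvPolynomial.eval_X] at h3
    show ((P i).map (evalRingHom 0)).IsRoot (t i)
    rw [Polynomial.IsRoot.def, Polynomial.eval_map]
    exact h3.symm

/-- coefficients of a polynomial under a linear functional -/
noncomputable def fn {k U : Type} [Field k] [Field U] [Algebra k U] (φ : U →ₗ[k] k)
    (G : MvPolynomial (Fin 4) U) : MvPolynomial (Fin 4) k :=
  ∑ m ∈ G.support, MvPolynomial.monomial m (φ (G.coeff m))

theorem zfu : ZfuStmt := by
  intro k U _ _ _ f g env q G hS y hy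
  obtain ⟨b⟩ : Nonempty (Module.Basis (Module.Basis.ofVectorSpaceIndex k U) k U) :=
    ⟨Module.Basis.ofVectorSpace k U⟩
  have key : ∀ φ : U →ₗ[k] k, MvPolynomial.aeval y (fn φ G) = 0 := by
    intro φ
    apply hy
    apply part1 env.td
    apply hS.mono
    rintro t ⟨ht1, ht2⟩
    refine ⟨ht1, ?_⟩
    have h1 : φ (MvPolynomial.eval (emb U t) G) = 0 := by rw [ht2, map_zero]
    rw [MvPolynomial.eval_eq, map_sum] at h1
    rw [fn, map_sum, ← h1]
    apply Finset.sum_congr rfl
    intro m _
    rw [MvPolynomial.eval_monomial, Finsupp.prod_fintype _ _ (fun i => pow_zero _)]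
    have h2 : (∏ i ∈ m.support, emb U t i ^ m i) = algebraMap k U (∏ i, t i ^ m i) := by
      rw [map_prod]
      have h3 : (∏ i ∈ m.support, emb U t i ^ m i) = m.prod fun i e => emb U t i ^ e := rfl
      rw [h3, Finsupp.prod_fintype _ _ (fun i => pow_zero _)]
      apply Finset.prod_congr rfl
      intro i _
      rw [map_pow]
      rfl
    have h4 : G.coeff m * (∏ i ∈ m.support, emb U t i ^ m i) = (∏ i, t i ^ m i) • G.coeff m := by
      rw [h2, Algebra.smul_def, mul_comm]
    rw [h4, map_smul, smul_eq_mul, mul_comm]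
  have h5 : ∀ i, ∑ m ∈ G.support, (b.repr (G.coeff m) i) • (∏ j ∈ m.support, y j ^ m j) = 0 := by
    intro i
    have h6 := key (b.coord i)
    rw [fn, map_sum] at h6
    rw [← h6]
    apply Finset.sum_congr rfl
    intro m _
    rw [MvPolynomial.aeval_monomial, Algebra.smul_def]
    rfl
  classical
  obtain ⟨s, hs⟩ : ∃ s : Finset (Module.Basis.ofVectorSpaceIndex k U), ∀ m ∈ G.support,
      (b.repr (G.coeff m)).support ⊆ s :=
    ⟨G.support.biUnion fun m => (b.repr (G.coeff m)).support,
      fun m hm => Finset.subset_biUnion_of_mem (fun m => (b.repr (G.coeff m)).support) hm⟩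
  have h7 : ∀ m ∈ G.support, G.coeff m = ∑ i ∈ s, (b.repr (G.coeff m) i) • b i := by
    intro m hm
    conv_lhs => rw [← b.linearCombination_repr (G.coeff m)]
    rw [Finsupp.linearCombination_apply, Finsupp.sum]
    apply Finset.sum_subset (hs m hm)
    intro i _ hi
    rw [Finsupp.notMem_support_iff.1 hi, zero_smul]
  rw [MvPolynomial.eval_eq]
  calc ∑ m ∈ G.support, G.coeff m * ∏ j ∈ m.support, y j ^ m j
      = ∑ m ∈ G.support, ∑ i ∈ s, b i * ((b.repr (G.coeff m) i) •
          ∏ j ∈ m.support, y j ^ m j) := by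
        apply Finset.sum_congr rfl
        intro m hm
        conv_lhs => rw [h7 m hm]
        rw [Finset.sum_mul]
        apply Finset.sum_congr rfl
        intro i _
        rw [smul_mul_assoc, mul_smul_comm]
    _ = ∑ i ∈ s, b i * ∑ m ∈ G.support, ((b.repr (G.coeff m) i) •
          ∏ j ∈ m.support, y j ^ m j) := by
        rw [Finset.sum_comm]
        apply Finset.sum_congr rfl
        intro i _
        rw [Finset.mul_sum]
    _ = 0 := by
        apply Finset.sum_eq_zero
        intro i _
        rw [h5 i, mul_zero]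

end Pool.Agent.COV.H45
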