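import Pool.Agent.COV.StmtsD

/-!
# Squad COV, row LR2: lines (adapted from `Pool/Agent/Helper25_COV/LI8.lean`)
-/

set_option autoImplicit false

namespace Pool.Agent.COV.H45

open Polynomial NumberField Pool.Agent.TTC

theorem totalDegree_map_le9 {σ R S : Type} [CommRing R] [CommRing S] (f : R →+* S)
    (p : MvPolynomial σ R) : (p.map f).totalDegree ≤ p.totalDegree :=
  Finset.sup_mono (MvPolynomial.support_map_subset f p)

theorem lr2 (hsb1 : Sb1Stmt) (hsb2 : Sb2Stmt) (hdir : DirStmt) (hndg : NdgStmt) (hlsz : LszStmt)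
    (hlr1 : Lr1Stmt) : Lr2Stmt := by
  intro A m δ hδ
  obtain ⟨A1, hA1, hA⟩ := hlsz A m (2 * (A + 1)) (by omega)
  obtain ⟨A2, hA2⟩ : ∃ A2, A2 = A + A1 * (A + 1) ^ A1 + (A + 1) * A1 := ⟨_, rfl⟩
  obtain ⟨ε, C, hε, hC, hF⟩ := hlr1 A2 δ hδ
  refine ⟨ε, A + 1, A * A, C, hε, hC, by omega, ?_⟩
  intro H D E i₀ hH hD hE hD0 ht
  obtain ⟨t₀, ht₀, ht₀'⟩ := ht
  obtain ⟨sb1, sb2, sb3, sb4, sb5⟩ := hsb1
  obtain ⟨P, hP⟩ : ∃ P, P = D.map (Int.castRingHom ℂ) := ⟨_, rfl⟩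
  obtain ⟨E0, hE0⟩ : ∃ E0, E0 = E.map (Int.castRingHom ℂ) := ⟨_, rfl⟩
  have hdr : ∀ t : Fin (m + 1) → ℂ, MvPolynomial.aeval t D = MvPolynomial.eval t P := by
    intro t
    rw [hP, sb4 m D t]
  have her : ∀ t : Fin (m + 1) → ℂ, MvPolynomial.aeval t E = MvPolynomial.eval t E0 := by
    intro t
    rw [hE0, sb4 m E t]
  have hP0 : P ≠ 0 := by
    intro h0
    apply hD0
    apply MvPolynomial.map_injective (Int.castRingHom ℂ) (RingHom.injective_int _)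
    rw [← hP, h0, map_zero]
  have hN : P.totalDegree ≤ A := by
    rw [hP]
    exact (totalDegree_map_le9 _ _).trans hD.1
  have hNE : E0.totalDegree ≤ A := by
    rw [hE0]
    exact (totalDegree_map_le9 _ _).trans hE.1
  obtain ⟨a, ha, l, hl, hcoef⟩ := hdir m P.totalDegree P i₀ hP0 rfl
  have hTD := hsb2 m P.totalDegree i₀ a P le_rfl
  have hTE := hsb2 m A i₀ a E0 hNE
  have hpt := sb5 m i₀ a ℂ t₀
  have hD1 : ev (fun j => t₀ (i₀.succAbove j) - (a j : ℂ) * t₀ i₀) (t₀ i₀) (sub i₀ a P) = 0 := by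
    rw [sb3, hpt, ← hdr]
    exact ht₀
  have hE1 : ev (fun j => t₀ (i₀.succAbove j) - (a j : ℂ) * t₀ i₀) (t₀ i₀) (sub i₀ a E0)
      ≠ 0 := by
    rw [sb3, hpt, ← her]
    exact ht₀'
  obtain ⟨R, hR0, hRd, hR⟩ := hndg m P.totalDegree A (sub i₀ a P) (sub i₀ a E0) l _ _ hl
    hcoef hTD hTE hD1 hE1
  refine ⟨a, R, fun i => by have := ha i; omega, hR0,
    hRd.trans (Nat.mul_le_mul_right _ hN), ?_⟩
  intro b hb hRb
  -- the size on the line
  have hH1 : 1 ≤ (A + 1) * H ^ (A + 1) := Nat.one_le_iff_ne_zero.2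
    (Nat.mul_ne_zero (by omega) (pow_ne_zero _ (by omega)))
  have hHH : H ≤ (A + 1) * H ^ (A + 1) := by
    calc H = H ^ 1 := (pow_one H).symm
      _ ≤ H ^ (A + 1) := Nat.pow_le_pow_right hH (by omega)
      _ ≤ (A + 1) * H ^ (A + 1) := Nat.le_mul_of_pos_left _ (by omega)
  have hbig : A * H ^ A ≤ (A + 1) * H ^ (A + 1) :=
    Nat.mul_le_mul (by omega) (Nat.pow_le_pow_right hH (by omega))
  have hms : ∀ Q : MvPolynomial (Fin (m + 1)) ℤ, SzM A H Q →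
      MSiz A ((A + 1) * H ^ (A + 1)) Q := by
    intro Q hQ
    refine ⟨hQ.1, fun n => (hQ.2 n).trans ?_⟩
    have h1 : ((A * H ^ A : ℕ) : ℤ) ≤ (((A + 1) * H ^ (A + 1) : ℕ) : ℤ) := by exact_mod_cast hbig
    calc (A : ℤ) * (H : ℤ) ^ A = ((A * H ^ A : ℕ) : ℤ) := by push_cast; ring
      _ ≤ _ := h1
  have hsize : A1 * ((A + 1) * H ^ (A + 1)) ^ A1 ≤ A2 * H ^ A2 := by
    calc A1 * ((A + 1) * H ^ (A + 1)) ^ A1
        = (A1 * (A + 1) ^ A1) * H ^ ((A + 1) * A1) := by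
          rw [mul_pow, ← pow_mul, mul_assoc]
      _ ≤ A2 * H ^ A2 := Nat.mul_le_mul (by omega) (Nat.pow_le_pow_right hH (by omega))
  have hsiz : ∀ Q : MvPolynomial (Fin (m + 1)) ℤ, SzM A H Q →
      Siz A2 (A2 * (H : ℤ) ^ A2) ((sub i₀ a Q).map (MvPolynomial.eval b)) := by
    intro Q hQ
    have h1 := hA ((A + 1) * H ^ (A + 1)) i₀ a b Q hH1 (fun j => by have := ha j; omega)
      (fun j => (hb j).trans (by
        have h2 : ((H : ℕ) : ℤ) ≤ (((A + 1) * H ^ (A + 1) : ℕ) : ℤ) := by exact_mod_cast hHH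
        have h3 : (0 : ℤ) ≤ ((2 * (A + 1) : ℕ) : ℤ) := by positivity
        calc 2 * (((A + 1 : ℕ)) : ℤ) * (H : ℤ) = ((2 * (A + 1) : ℕ) : ℤ) * (H : ℤ) := by
              push_cast; ring
          _ ≤ ((2 * (A + 1) : ℕ) : ℤ) * (((A + 1) * H ^ (A + 1) : ℕ) : ℤ) :=
            mul_le_mul_of_nonneg_left h2 h3))
      (hms Q hQ)
    refine ⟨h1.1.trans (by omega), fun n => (h1.2 n).trans ?_⟩
    have h4 : ((A1 * ((A + 1) * H ^ (A + 1)) ^ A1 : ℕ) : ℤ) ≤ ((A2 * H ^ A2 : ℕ) : ℤ) := by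
      exact_mod_cast hsize
    calc (A1 : ℤ) * (((A + 1) * H ^ (A + 1) : ℕ) : ℤ) ^ A1 =
        ((A1 * ((A + 1) * H ^ (A + 1)) ^ A1 : ℕ) : ℤ) := by push_cast; ring
      _ ≤ ((A2 * H ^ A2 : ℕ) : ℤ) := h4
      _ = _ := by push_cast; ring
  have hne : (sub i₀ a D).map (MvPolynomial.eval b) ≠ 0 := by
    intro h
    have h0 : (sub i₀ a P).map (MvPolynomial.eval fun j => ((b j : ℤ) : ℂ)) = 0 := by
      apply Polynomial.funext
      intro s
      have h1 := sb2 m i₀ a D b s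
      rw [h, map_zero, hdr, ← sb3] at h1
      rw [eval_zero]
      exact h1.symm
    have h2 := congrArg (fun p => coeff p P.totalDegree) h0
    simp only [coeff_map, hcoef, MvPolynomial.eval_C, coeff_zero] at h2
    exact hl h2
  have hfin := hF H ((sub i₀ a D).map (MvPolynomial.eval b))
    ((sub i₀ a E).map (MvPolynomial.eval b)) hH (hsiz D hD) (hsiz E hE) hne (by
      obtain ⟨s, hs1, hs2⟩ := hR _ hRb
      refine ⟨s, ?_, ?_⟩
      · rw [sb2, hdr, ← sb3]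
        exact hs1
      · rw [sb2, her, ← sb3]
        exact hs2)
  simp only [sb1] at hfin
  exact hfin

end Pool.Agent.COV.H45
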